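import Pool.Agent.helper76.FF2.Spec

/-!
# Project FF2, row BAD
-/

set_option autoImplicit false

namespace Pool.Agent.FF2

open Polynomial

theorem BAD_term {K : Type*} [Field K] [CharP K 2] (a x : K) (h : a ≠ x) :
    a * x / (a + x) ^ 2 = (a / (a + x)) ^ 2 + a / (a + x) := by
  have hne : a + x ≠ 0 := by
    intro h0
    apply h
    have h1 : a = -x := eq_neg_of_add_eq_zero_left h0
    rw [h1, CharTwo.neg_eq]
  have h2 : (2 : K) = 0 := CharTwo.two_eq_zero
  rw [div_pow, div_add_div _ _ (pow_ne_zero 2 hne) hne, div_eq_div_iff (pow_ne_zero 2 hne)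
    (mul_ne_zero (pow_ne_zero 2 hne) hne)]
  linear_combination (-a ^ 2 * (a + x) ^ 3) * h2

theorem BAD (K : Type*) [Field K] [CharP K 2] (h1 : E2A_stmt K) : BAD_stmt K := by
  classical
  obtain ⟨-, -, hB0, hBc, -⟩ := h1
  have h2 : (2 : K) = 0 := CharTwo.two_eq_zero
  intro R
  induction R using Finset.cons_induction with
  | empty =>
    intro S h
    rw [Finset.empty_disjUnion, hB0]
    simp
  | cons a R ha ih =>
    intro S h
    have haS : a ∉ S := Finset.disjoint_left.1 h (Finset.mem_cons_self a R)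
    have hRS : Disjoint R S := by
      rw [Finset.disjoint_left]
      intro x hx
      exact Finset.disjoint_left.1 h (Finset.mem_cons_of_mem hx)
    have haU : a ∉ R.disjUnion S hRS := by
      rw [Finset.mem_disjUnion]
      rintro (h0 | h0)
      · exact ha h0
      · exact haS h0
    have hU : (Finset.cons a R ha).disjUnion S h = Finset.cons a (R.disjUnion S hRS) haU := by
      ext x
      simp only [Finset.mem_disjUnion, Finset.mem_cons]
      tauto
    rw [hU, hBc _ a haU, ih S hRS, hBc R a ha, Finset.sum_disjUnion, Finset.sum_cons]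
    have hS : ∑ x ∈ S, a * x / (a + x) ^ 2 =
        (∑ y ∈ S, a / (a + y)) ^ 2 + ∑ y ∈ S, a / (a + y) := by
      rw [CharTwo.sum_sq, ← Finset.sum_add_distrib]
      refine Finset.sum_congr rfl fun x hx => ?_
      exact BAD_term a x (fun h0 => haS (h0 ▸ hx))
    rw [hS]
    linear_combination (-(∑ y ∈ S, a / (a + y)) * ∑ x ∈ R, ∑ y ∈ S, x / (x + y)) * h2

end Pool.Agent.FF2
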